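import Pool.Agent.H295R2.Nic.Defs

/-! The error term in the prime number theorem from the bound of the logarithmic derivative of zeta
to the right of the zeros (task N2, helper25). -/

set_option autoImplicit false

open MeasureTheory Filter Topology Set

namespace Pool.Agent.H25R2.NicN2

open Pool.Agent.H295R2 Pool.Agent.H295R2.Nic

noncomputable section

/-! ### averages of functions of exponential growth -/

lemma nice_ii {k : ℝ → ℂ} {C a u₀ : ℝ} (h : Nice k C a u₀) (α β : ℝ) :
    IntervalIntegrable k volume α β := by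
  have h2 : Continuous (fun u : ℝ => C * Real.exp (a * u)) := by fun_prop
  refine (h2.intervalIntegrable α β).mono_fun h.meas.aestronglyMeasurable
    (Eventually.of_forall fun u => ?_)
  show ‖k u‖ ≤ ‖C * Real.exp (a * u)‖
  rw [Real.norm_eq_abs]
  exact (h.bound u).trans (le_abs_self _)

lemma avg_cont {k : ℝ → ℂ} {C a u₀ : ℝ} (h : Nice k C a u₀) (η : ℝ) :
    Continuous (avg η k) := by
  unfold avg
  refine continuous_const.mul ?_
  have h1 : ∀ u : ℝ, ∫ v in (0:ℝ)..η, k (u + v) =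
      (∫ v in (0:ℝ)..(u + η), k v) - ∫ v in (0:ℝ)..u, k v := by
    intro u
    rw [intervalIntegral.integral_comp_add_left (fun v => k v) u, add_zero,
      intervalIntegral.integral_interval_sub_left (nice_ii h _ _) (nice_ii h _ _)]
  simp_rw [h1]
  have h2 := intervalIntegral.continuous_primitive (μ := volume) (fun a b => nice_ii h a b) 0
  exact (h2.comp (continuous_id.add continuous_const)).sub h2

lemma nice_avg {k : ℝ → ℂ} {C a u₀ η : ℝ} (h : Nice k C a u₀) (ha : 0 ≤ a) (hη : 0 < η) :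
    Nice (avg η k) (C * Real.exp (a * η)) a (u₀ - η) where
  meas := (avg_cont h η).measurable
  bound := by
    intro u
    have hC := h.C_nonneg
    have h2 : ‖∫ v in (0:ℝ)..η, k (u + v)‖ ≤ (C * Real.exp (a * (u + η))) * |η - 0| := by
      refine intervalIntegral.norm_integral_le_of_norm_le_const fun v hv => ?_
      rw [uIoc_of_le hη.le] at hv
      refine (h.bound _).trans ?_
      refine mul_le_mul_of_nonneg_left (Real.exp_le_exp.2 ?_) hC
      exact mul_le_mul_of_nonneg_left (by linarith [hv.2]) ha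
    rw [sub_zero, abs_of_pos hη] at h2
    unfold avg
    rw [norm_mul, norm_div, norm_one, Complex.norm_real, Real.norm_of_nonneg hη.le]
    calc 1 / η * ‖∫ v in (0:ℝ)..η, k (u + v)‖ ≤ 1 / η * ((C * Real.exp (a * (u + η))) * η) := by
          gcongr
      _ = C * Real.exp (a * (u + η)) := by field_simp
      _ = C * Real.exp (a * η) * Real.exp (a * u) := by
        rw [mul_assoc, ← Real.exp_add]; congr 2; ring
  zero := by
    intro u hu
    unfold avg
    have : ∫ v in (0:ℝ)..η, k (u + v) = ∫ v in (0:ℝ)..η, (0:ℂ) := by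
      apply intervalIntegral.integral_congr
      intro v hv
      rw [uIcc_of_le hη.le] at hv
      exact h.zero _ (by linarith [hv.2])
    rw [this]
    simp

lemma lap_avg {k : ℝ → ℂ} {C a u₀ η : ℝ} (h : Nice k C a u₀) (hη : 0 < η) {s : ℂ}
    (hs : a < s.re) (hs0 : s ≠ 0) : Lap (avg η k) s = phi η s * Lap k s := by
  unfold Lap avg
  have h1 : ∀ u : ℝ, (1 / (η : ℂ) * ∫ v in (0:ℝ)..η, k (u + v)) * Complex.exp (-(s * u)) =
      (1 / (η : ℂ)) * ∫ v in Ioc (0:ℝ) η, k (u + v) * Complex.exp (-(s * u)) := by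
    intro u
    rw [intervalIntegral.integral_of_le hη.le, mul_assoc, ← integral_mul_const]
  simp_rw [h1]
  rw [integral_const_mul]
  have hmeas : AEStronglyMeasurable
      (Function.uncurry fun (u v : ℝ) => k (u + v) * Complex.exp (-(s * u)))
      (volume.prod (volume.restrict (Ioc (0:ℝ) η))) := by
    refine Measurable.aestronglyMeasurable ?_
    refine Measurable.mul (h.meas.comp (measurable_fst.add measurable_snd)) ?_
    have : Continuous (fun p : ℝ × ℝ => Complex.exp (-(s * p.1))) := by fun_prop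
    exact this.measurable
  have hint : Integrable (Function.uncurry fun (u v : ℝ) => k (u + v) * Complex.exp (-(s * u)))
      (volume.prod (volume.restrict (Ioc (0:ℝ) η))) := by
    rw [integrable_prod_iff' hmeas]
    refine ⟨Eventually.of_forall fun v => h.shift_integrable hs v, ?_⟩
    simp only [Function.uncurry_apply_pair]
    simp_rw [Nice.shift_norm]
    have : Continuous (fun v : ℝ => Real.exp (s.re * v) *
      ∫ u : ℝ, ‖k u * Complex.exp (-(s * u))‖) := by
      fun_prop
    exact (this.integrableOn_Icc (a := 0) (b := η)).mono_set Ioc_subset_Icc_self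
  rw [integral_integral_swap hint]
  simp_rw [h.Lap_shift s]
  rw [integral_mul_const, ← intervalIntegral.integral_of_le hη.le, integral_exp_mul_complex hs0]
  unfold phi Lap
  have hη' : (η : ℂ) ≠ 0 := by exact_mod_cast hη.ne'
  simp only [Complex.ofReal_zero, mul_zero, Complex.exp_zero]
  field_simp

/-- Fourier inversion for functions of exponential growth -/
lemma inv' {k : ℝ → ℂ} {C a u₀ c : ℝ} (h : Nice k C a u₀) (hc : a < c) (hcont : Continuous k)
    (hint : Integrable (fun ξ : ℝ => Lap k (c + 2 * Real.pi * ξ * Complex.I))) (u : ℝ) :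
    k u = ∫ ξ : ℝ, Lap k (c + 2 * Real.pi * ξ * Complex.I) *
      Complex.exp ((c + 2 * Real.pi * ξ * Complex.I) * u) := by
  set k' : ℝ → ℂ := fun u => k u * Complex.exp (-(a * u)) with hk'
  have hn : Nice k' C 0 u₀ := by
    refine ⟨?_, ?_, ?_⟩
    · refine h.meas.mul ?_
      have : Continuous (fun u : ℝ => Complex.exp (-(a * u))) := by fun_prop
      exact this.measurable
    · intro u
      have h1 : ‖Complex.exp (-((a : ℂ) * u))‖ = Real.exp (-(a * u)) := by
        rw [Complex.norm_exp]; congr 1; simp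
      simp only [hk', norm_mul, h1]
      calc ‖k u‖ * Real.exp (-(a * u)) ≤ (C * Real.exp (a * u)) * Real.exp (-(a * u)) :=
            mul_le_mul_of_nonneg_right (h.bound u) (Real.exp_pos _).le
        _ = C * Real.exp (0 * u) := by
          rw [mul_assoc, ← Real.exp_add]; simp
    · intro u hu
      simp only [hk']
      rw [h.zero u hu, zero_mul]
  have hL : ∀ s : ℂ, Lap k' s = Lap k (s + a) := by
    intro s
    unfold Lap
    refine integral_congr_ae (Eventually.of_forall fun u => ?_)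
    simp only [hk']
    rw [mul_assoc, ← Complex.exp_add]
    congr 2
    ring
  have e1 : ∀ ξ : ℝ, (((c - a : ℝ) : ℂ) + 2 * Real.pi * ξ * Complex.I) + a =
      (c : ℂ) + 2 * Real.pi * ξ * Complex.I := by
    intro ξ; push_cast; ring
  have h2 := inversion hn (c := c - a) (by linarith) (by rw [hk']; fun_prop) (by
    refine hint.congr (Eventually.of_forall fun ξ => ?_)
    simp only
    rw [hL, e1]) u
  have h3 : k u = k' u * Complex.exp (a * u) := by
    simp only [hk']
    rw [mul_assoc, ← Complex.exp_add]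
    simp
  rw [h3, h2, ← integral_mul_const]
  refine integral_congr_ae (Eventually.of_forall fun ξ => ?_)
  simp only
  rw [hL, e1, mul_assoc, ← Complex.exp_add]
  congr 2
  push_cast
  ring

/-! ### the function -/

/-- `ψ(e^v) - e^v` for `v ≥ 0` -/
def fR (v : ℝ) : ℝ := if 0 ≤ v then Sv v else 0

/-- the same with complex values -/
def kk (v : ℝ) : ℂ := (fR v : ℂ)

lemma psi_le' {x : ℝ} (hx : 0 ≤ x) : Chebyshev.psi x ≤ 7 * x := by
  have h1 := Chebyshev.psi_le_const_mul_self hx
  have h2 : Real.log 4 ≤ 3 := by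
    have := Real.log_le_sub_one_of_pos (show (0:ℝ) < 4 by norm_num)
    linarith
  nlinarith

lemma abs_psi_sub {x : ℝ} (hx : 0 ≤ x) : |Chebyshev.psi x - x| ≤ 7 * x := by
  have h1 := psi_le' hx
  have h2 := Chebyshev.psi_nonneg x
  rw [abs_le]
  constructor <;> linarith

lemma meas_fR : Measurable fR := by
  refine Measurable.ite measurableSet_Ici ?_ measurable_const
  unfold Sv
  exact (Chebyshev.psi_mono.measurable.comp Real.measurable_exp).sub Real.measurable_exp

lemma nice_kk : Nice kk 7 1 0 where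
  meas := Complex.measurable_ofReal.comp meas_fR
  bound := by
    intro u
    unfold kk fR
    rw [Complex.norm_real, Real.norm_eq_abs]
    split_ifs with h
    · have := abs_psi_sub (Real.exp_pos u).le
      rw [one_mul]
      exact this
    · rw [abs_zero]; positivity
  zero := by
    intro u hu
    unfold kk fR
    rw [if_neg (by linarith), Complex.ofReal_zero]

lemma exp_image : Real.exp '' Ioi (0:ℝ) = Ioi 1 := by
  ext y
  constructor
  · rintro ⟨x, hx, rfl⟩
    exact Real.one_lt_exp_iff.2 hx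
  · intro hy
    have hy' : (1:ℝ) < y := hy
    exact ⟨Real.log y, Real.log_pos hy', Real.exp_log (by linarith)⟩

lemma psi_integral {s : ℂ} (hs : 1 < s.re) :
    ∫ v in Ioi (0:ℝ), (Chebyshev.psi (Real.exp v) : ℂ) * Complex.exp (-(s * v)) =
      -(deriv riemannZeta s / riemannZeta s) / s := by
  have hs0 : s ≠ 0 := by rintro rfl; simp at hs; linarith
  have h1 : (fun n : ℕ => ∑ k ∈ Finset.Icc 1 n, (ArithmeticFunction.vonMangoldt k)) =O[atTop]
      fun n : ℕ => (n : ℝ) ^ (1:ℝ) := by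
    refine Asymptotics.IsBigO.of_bound 7 (Eventually.of_forall fun n => ?_)
    have e : ∑ k ∈ Finset.Icc 1 n, ArithmeticFunction.vonMangoldt k = Chebyshev.psi n := by
      unfold Chebyshev.psi
      rw [Nat.floor_natCast]
      rfl
    rw [e, Real.norm_of_nonneg (Chebyshev.psi_nonneg _), Real.rpow_one,
      Real.norm_of_nonneg (Nat.cast_nonneg n)]
    exact psi_le' (Nat.cast_nonneg n)
  have h2 := LSeries_eq_mul_integral_of_nonneg (fun n => ArithmeticFunction.vonMangoldt n)
    zero_le_one hs h1 (fun n => ArithmeticFunction.vonMangoldt_nonneg)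
  have h3 := ArithmeticFunction.LSeries_vonMangoldt_eq_deriv_riemannZeta_div hs
  have h4 : ∫ t in Ioi (1:ℝ), (∑ k ∈ Finset.Icc 1 ⌊t⌋₊, (ArithmeticFunction.vonMangoldt k : ℂ)) *
      (t : ℂ) ^ (-(s + 1)) =
      ∫ v in Ioi (0:ℝ), (Chebyshev.psi (Real.exp v) : ℂ) * Complex.exp (-(s * v)) := by
    rw [← exp_image, integral_image_eq_integral_abs_deriv_smul measurableSet_Ioi
      (fun x _ => (Real.hasDerivAt_exp x).hasDerivWithinAt) (Real.exp_injective.injOn)]
    refine integral_congr_ae (Eventually.of_forall fun v => ?_)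
    simp only
    have e1 : (∑ k ∈ Finset.Icc 1 ⌊Real.exp v⌋₊, (ArithmeticFunction.vonMangoldt k : ℂ)) =
        (Chebyshev.psi (Real.exp v) : ℂ) := by
      unfold Chebyshev.psi
      push_cast
      rfl
    have e2 : ((Real.exp v : ℝ) : ℂ) ^ (-(s + 1)) = Complex.exp (-(s + 1) * v) := by
      rw [Complex.cpow_def_of_ne_zero (by exact_mod_cast (Real.exp_pos v).ne'),
        ← Complex.ofReal_log (Real.exp_pos v).le, Real.log_exp]
      congr 1
      ring
    rw [e1, e2, abs_of_pos (Real.exp_pos v), Complex.real_smul]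
    have e3 : ((Real.exp v : ℝ) : ℂ) * Complex.exp (-(s + 1) * v) = Complex.exp (-(s * v)) := by
      rw [Complex.ofReal_exp, ← Complex.exp_add]
      congr 1
      ring
    linear_combination (Chebyshev.psi (Real.exp v) : ℂ) * e3
  rw [h4] at h2
  have h5 : LSeries (fun n => ((ArithmeticFunction.vonMangoldt n : ℝ) : ℂ)) s =
      -deriv riemannZeta s / riemannZeta s := h3
  rw [h5] at h2
  field_simp
  rw [← h2]
  ring

lemma lap_ind {g : ℝ → ℂ} (s : ℂ) : Lap (fun v => if 0 ≤ v then g v else 0) s =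
    ∫ v in Ioi (0:ℝ), g v * Complex.exp (-(s * v)) := by
  unfold Lap
  rw [← integral_Ici_eq_integral_Ioi, ← integral_indicator measurableSet_Ici]
  refine integral_congr_ae (Eventually.of_forall fun v => ?_)
  simp only
  by_cases hv : 0 ≤ v
  · rw [if_pos hv, indicator_of_mem (by exact hv)]
  · rw [if_neg hv, indicator_of_notMem (by exact hv), zero_mul]

lemma nice_psi : Nice (fun v : ℝ => if 0 ≤ v then (Chebyshev.psi (Real.exp v) : ℂ) else 0) 7 1 0 where
  meas := Measurable.ite measurableSet_Ici (Complex.measurable_ofReal.comp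
    (Chebyshev.psi_mono.measurable.comp Real.measurable_exp)) measurable_const
  bound := by
    intro u
    split_ifs with h
    · rw [Complex.norm_real, Real.norm_of_nonneg (Chebyshev.psi_nonneg _), one_mul]
      exact psi_le' (Real.exp_pos u).le
    · rw [norm_zero]; positivity
  zero := by
    intro u hu
    rw [if_neg (by linarith)]

lemma nice_exp : Nice (fun v : ℝ => if 0 ≤ v then Complex.exp v else 0) 1 1 0 where
  meas := by
    refine Measurable.ite measurableSet_Ici ?_ measurable_const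
    have : Continuous (fun v : ℝ => Complex.exp v) := by fun_prop
    exact this.measurable
  bound := by
    intro u
    split_ifs with h
    · rw [Complex.norm_exp, Complex.ofReal_re, one_mul, one_mul]
    · rw [norm_zero]; positivity
  zero := by
    intro u hu
    rw [if_neg (by linarith)]

lemma deriv_Zs {s : ℂ} (hs : s ≠ 1) :
    deriv Zs s = riemannZeta s + (s - 1) * deriv riemannZeta s := by
  have h1 : Zs =ᶠ[𝓝 s] fun z => (z - 1) * riemannZeta z := by
    filter_upwards [isOpen_ne.mem_nhds hs] with z hz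
    exact (Zs_eq hz).symm
  rw [h1.deriv_eq]
  have h2 : HasDerivAt (fun z : ℂ => (z - 1) * riemannZeta z)
      (1 * riemannZeta s + (s - 1) * deriv riemannZeta s) s :=
    ((hasDerivAt_id s).sub_const 1).mul (differentiableAt_riemannZeta hs).hasDerivAt
  rw [h2.deriv, one_mul]

lemma lap_kk {s : ℂ} (hs : 1 < s.re) : Lap kk s = HA s := by
  have hs0 : s ≠ 0 := by rintro rfl; simp at hs; linarith
  have hs1 : s ≠ 1 := by rintro rfl; simp at hs
  have hs1' : s - 1 ≠ 0 := sub_ne_zero.2 hs1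
  have hz : riemannZeta s ≠ 0 := riemannZeta_ne_zero_of_one_le_re hs.le
  have h1 : Lap kk s = Lap (fun v : ℝ => if 0 ≤ v then (Chebyshev.psi (Real.exp v) : ℂ) else 0) s -
      Lap (fun v : ℝ => if 0 ≤ v then Complex.exp v else 0) s := by
    unfold Lap
    rw [← integral_sub (nice_psi.integrable hs) (nice_exp.integrable hs)]
    refine integral_congr_ae (Eventually.of_forall fun v => ?_)
    simp only [kk, fR, Sv]
    split_ifs with hv
    · push_cast
      ring
    · simp
  rw [h1, lap_ind, lap_ind, psi_integral hs]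
  have h2 : ∫ v in Ioi (0:ℝ), Complex.exp v * Complex.exp (-(s * v)) = 1 / (s - 1) := by
    have e1 : ∀ v : ℝ, Complex.exp v * Complex.exp (-(s * v)) = Complex.exp ((1 - s) * v) := by
      intro v
      rw [← Complex.exp_add]
      congr 1
      ring
    simp_rw [e1]
    rw [integral_exp_mul_complex_Ioi (by simp; linarith)]
    simp only [Complex.ofReal_zero, mul_zero, Complex.exp_zero]
    have : (1 - s) ≠ 0 := sub_ne_zero.2 (Ne.symm hs1)
    field_simp
    ring
  rw [h2]
  unfold HA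
  rw [deriv_Zs hs1, ← Zs_eq hs1]
  field_simp
  ring

lemma HA_diff {s : ℂ} (hs : zetaSup < s.re) : DifferentiableAt ℂ HA s := by
  have hs0 : s ≠ 0 := by
    rintro rfl
    have := zetaSup_pos
    simp at hs
    linarith
  have h1 : DifferentiableAt ℂ (deriv Zs) s :=
    (Zs_differentiable.analyticAt s).deriv.differentiableAt
  have h2 := zetaSup_free s hs
  have h3 : DifferentiableAt ℂ Zs s := Zs_differentiable s
  have h4 : s * Zs s ≠ 0 := mul_ne_zero hs0 h2
  unfold HA
  exact ((h1.neg.div (differentiableAt_id.mul h3) h4).sub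
    ((differentiableAt_const 1).div differentiableAt_id hs0))

lemma inv_norm_le {s : ℂ} (hs : 1 / 4 ≤ s.re) : ‖s‖⁻¹ ≤ 5 * (1 + |s.im|) ^ (-(1:ℝ)) := by
  have hT0 : 0 < 1 + |s.im| := by positivity
  rw [Real.rpow_neg hT0.le, Real.rpow_one]
  have hs0 : 1 / 4 ≤ ‖s‖ := hs.trans ((le_abs_self _).trans (Complex.abs_re_le_norm s))
  have hs1 : |s.im| ≤ ‖s‖ := Complex.abs_im_le_norm s
  rw [← one_div, ← div_eq_mul_inv, div_le_div_iff₀ (by linarith) hT0]
  linarith

lemma HA_bound (h : LogDerB) {σ ε : ℝ} (hσ : zetaSup < σ) (hε : 0 < ε) :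
    ∃ C : ℝ, 0 ≤ C ∧ ∀ s : ℂ, σ ≤ s.re → s.re ≤ 2 → ‖HA s‖ ≤ C * (1 + |s.im|) ^ (ε - 1) := by
  obtain ⟨C₁, hC₁⟩ := h σ hσ ε hε
  refine ⟨5 * (|C₁| + 1), by positivity, fun s hs1 hs2 => ?_⟩
  have h1 := hC₁ s hs1 (by linarith)
  have hhalf := half_le_zetaSup
  have h2 := inv_norm_le (s := s) (by linarith)
  set T := 1 + |s.im| with hT
  have hT1 : 1 ≤ T := by rw [hT]; linarith [abs_nonneg s.im]
  have hT0 : 0 < T := by linarith
  have h3 : 1 ≤ T ^ ε := Real.one_le_rpow hT1 hε.le
  have e1 : HA s = -(deriv Zs s / Zs s) * s⁻¹ - s⁻¹ := by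
    unfold HA
    rw [neg_div, div_mul_eq_div_div_swap]
    ring
  have e2 : T ^ (ε - 1) = T ^ ε * T ^ (-(1:ℝ)) := by
    rw [← Real.rpow_add hT0]; congr 1
  rw [e1]
  calc ‖-(deriv Zs s / Zs s) * s⁻¹ - s⁻¹‖ ≤ ‖-(deriv Zs s / Zs s) * s⁻¹‖ + ‖s⁻¹‖ := norm_sub_le _ _
    _ = (‖deriv Zs s / Zs s‖ + 1) * ‖s‖⁻¹ := by
      rw [norm_mul, norm_neg, norm_inv]; ring
    _ ≤ (|C₁| * T ^ ε + T ^ ε) * (5 * T ^ (-(1:ℝ))) := by
      refine mul_le_mul (add_le_add (h1.trans ?_) h3) h2 (by positivity) (by positivity)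
      exact mul_le_mul_of_nonneg_right (le_abs_self C₁) (by positivity)
    _ = 5 * (|C₁| + 1) * T ^ (ε - 1) := by rw [e2]; ring

/-! ### the contour -/

/-- the integrand -/
def PP (η x : ℝ) (s : ℂ) : ℂ := HA s * phi η s ^ 2 * Complex.exp (s * x)

lemma PP_bound (h : LogDerB) {σ η : ℝ} (x : ℝ) (hσ : zetaSup < σ) (hη : 0 < η) (hη1 : η ≤ 1) :
    ∃ B : ℝ, ∀ s : ℂ, σ ≤ s.re → s.re ≤ 2 →
      ‖PP η x s‖ ≤ B * (1 + |s.im|) ^ (-(3 / 2 : ℝ)) := by
  obtain ⟨C, hC0, hC⟩ := HA_bound h hσ (ε := 1 / 2) (by norm_num)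
  refine ⟨C * (1000 / η ^ 2) * Real.exp (2 * |x|), fun s hs1 hs2 => ?_⟩
  have hpos := zetaSup_pos
  have hre : 0 < s.re := by linarith
  have h1 := hC s hs1 hs2
  have h2 := norm_phi_sq_le hη hη1 hre hs2
  have h3 : ‖Complex.exp (s * x)‖ ≤ Real.exp (2 * |x|) := by
    rw [Complex.norm_exp]
    apply Real.exp_le_exp.mpr
    simp only [Complex.mul_re, Complex.ofReal_re, Complex.ofReal_im, mul_zero, sub_zero]
    have h5 := le_abs_self x
    have h6 := abs_nonneg x
    nlinarith
  set T := 1 + |s.im| with hT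
  have hT1 : 1 ≤ T := by rw [hT]; linarith [abs_nonneg s.im]
  have hT0 : 0 < T := by linarith
  have h4 : T ^ ((1 / 2 : ℝ) - 1) * T ^ (-2 : ℝ) ≤ T ^ (-(3 / 2 : ℝ)) := by
    rw [← Real.rpow_add hT0]
    exact Real.rpow_le_rpow_of_exponent_le hT1 (by norm_num)
  unfold PP
  rw [norm_mul, norm_mul, norm_pow]
  calc ‖HA s‖ * ‖phi η s‖ ^ 2 * ‖Complex.exp (s * x)‖
      ≤ (C * T ^ ((1 / 2 : ℝ) - 1)) * ((1000 / η ^ 2) * T ^ (-2 : ℝ)) * Real.exp (2 * |x|) := by
        gcongr
    _ = (C * (1000 / η ^ 2) * Real.exp (2 * |x|)) * (T ^ ((1 / 2 : ℝ) - 1) * T ^ (-2 : ℝ)) := by ring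
    _ ≤ _ := mul_le_mul_of_nonneg_left h4 (by positivity)

lemma PP_diff {σ η x : ℝ} (hσ : zetaSup < σ) (hη : 0 < η) (s : ℂ) (hs : σ ≤ s.re) :
    DifferentiableAt ℂ (PP η x) s := by
  have hpos := zetaSup_pos
  have hs0 : s ≠ 0 := by rintro rfl; simp at hs; linarith
  have e1 := HA_diff (s := s) (by linarith)
  have e2 := phi_differentiableAt hη hs0
  unfold PP
  fun_prop

lemma lap_avg2 {η : ℝ} (hη : 0 < η) {s : ℂ} (hs : 1 < s.re) :
    Lap (avg η (avg η kk)) s = HA s * phi η s ^ 2 := by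
  have hs0 : s ≠ 0 := by rintro rfl; simp at hs; linarith
  have n1 := nice_avg nice_kk zero_le_one hη
  rw [lap_avg n1 hη hs hs0, lap_avg nice_kk hη hs hs0, lap_kk hs]
  ring

lemma avg2_eq (h : LogDerB) {σ η : ℝ} (x : ℝ) (hσ : zetaSup < σ) (hσ2 : σ ≤ 2) (hη : 0 < η)
    (hη1 : η ≤ 1) :
    avg η (avg η kk) x = ∫ ξ : ℝ, PP η x (σ + 2 * Real.pi * ξ * Complex.I) := by
  have n1 := nice_avg nice_kk zero_le_one hη
  have n2 := nice_avg n1 zero_le_one hη
  have hre2 : ∀ ξ : ℝ, (((2:ℝ) : ℂ) + 2 * Real.pi * ξ * Complex.I).re = 2 := by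
    intro ξ; simp
  obtain ⟨B0, hB0⟩ := PP_bound h 0 hσ hη hη1
  have hint : Integrable (fun ξ : ℝ => Lap (avg η (avg η kk)) ((2:ℝ) + 2 * Real.pi * ξ * Complex.I)) := by
    refine scale_integrable (H := Lap (avg η (avg η kk))) ?_
    refine vertical_integrable (B := B0) ?_ ?_
    · intro s hs
      exact (n2.Lap_differentiableAt (by rw [hs]; norm_num)).continuousAt
    · intro s hs
      have h1 := hB0 s (by rw [hs]; exact hσ2) hs.le
      rw [lap_avg2 hη (by rw [hs]; norm_num)]
      unfold PP at h1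
      simpa using h1
  have h1 := inv' n2 (c := 2) (by norm_num) (avg_cont n1 η) hint x
  have h2 : avg η (avg η kk) x = ∫ ξ : ℝ, PP η x ((2:ℝ) + 2 * Real.pi * ξ * Complex.I) := by
    rw [h1]
    refine integral_congr_ae (Eventually.of_forall fun ξ => ?_)
    simp only
    rw [lap_avg2 hη (by rw [hre2]; norm_num)]
    rfl
  obtain ⟨B, hB⟩ := PP_bound h x hσ hη hη1
  have hshift := contour_shift hσ2 (fun s hs1 _ => PP_diff (x := x) hσ hη s hs1) hB
  rw [h2, scale_integral, scale_integral, hshift]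

lemma avg2_bound (h : LogDerB) {σ ε : ℝ} (hσ : zetaSup < σ) (hσ2 : σ ≤ 2) (hε : 0 < ε)
    (hε1 : 2 * ε ≤ 1) : ∃ C : ℝ, 0 ≤ C ∧ ∀ η x : ℝ, 0 < η → η ≤ 1 →
      ‖avg η (avg η kk) x‖ ≤ C * Real.exp (σ * x) * η ^ (-(2 * ε)) := by
  obtain ⟨C, hC0, hC⟩ := HA_bound h hσ hε
  set I0 : ℝ := ∫ ξ : ℝ, (1 + |2 * Real.pi * ξ|) ^ (-(1 + ε)) with hI0
  have hI0' : 0 ≤ I0 := integral_nonneg fun ξ => by positivity
  refine ⟨550 * C * I0, by positivity, fun η x hη hη1 => ?_⟩
  rw [avg2_eq h x hσ hσ2 hη hη1]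
  have hhalf := half_le_zetaSup
  have hpt : ∀ ξ : ℝ, ‖PP η x (σ + 2 * Real.pi * ξ * Complex.I)‖ ≤
      (550 * C * Real.exp (σ * x) * η ^ (-(2 * ε))) * (1 + |2 * Real.pi * ξ|) ^ (-(1 + ε)) := by
    intro ξ
    set s : ℂ := σ + 2 * Real.pi * ξ * Complex.I with hs
    have hsre : s.re = σ := line_re σ ξ
    have hsim : s.im = 2 * Real.pi * ξ := line_im σ ξ
    set T : ℝ := 1 + |2 * Real.pi * ξ| with hT
    have hT0 : 0 < T := by rw [hT]; positivity
    unfold PP
    rw [norm_mul, norm_mul, norm_pow]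
    have a1 : ‖HA s‖ ≤ C * T ^ (ε - 1) := by
      have := hC s (by rw [hsre]) (by rw [hsre]; exact hσ2)
      rw [hsim] at this
      exact this
    have a2 : ‖phi η s‖ ^ 2 ≤ 550 * (η * T) ^ (-(2 * ε)) := by
      have := norm_phi_pow (a := 2 * ε) hη hη1 (s := s) (by rw [hsre]; linarith)
        (by rw [hsre]; exact hσ2) (by positivity) hε1
      rw [hsim] at this
      exact this
    have a3 : ‖Complex.exp (s * x)‖ = Real.exp (σ * x) := by
      rw [Complex.norm_exp]
      simp only [Complex.mul_re, Complex.ofReal_re, Complex.ofReal_im, mul_zero, sub_zero, hsre]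
    rw [a3]
    have e1 : (η * T) ^ (-(2 * ε)) = η ^ (-(2 * ε)) * T ^ (-(2 * ε)) :=
      Real.mul_rpow hη.le hT0.le
    have e3 : T ^ (ε - 1) * T ^ (-(2 * ε)) = T ^ (-(1 + ε)) := by
      rw [← Real.rpow_add hT0]
      congr 1; ring
    calc ‖HA s‖ * ‖phi η s‖ ^ 2 * Real.exp (σ * x)
        ≤ (C * T ^ (ε - 1)) * (550 * (η * T) ^ (-(2 * ε))) * Real.exp (σ * x) := by gcongr
      _ = (550 * C * Real.exp (σ * x) * η ^ (-(2 * ε))) * (T ^ (ε - 1) * T ^ (-(2 * ε))) := by
        rw [e1]; ring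
      _ = _ := by rw [e3]
  have hI := (integrable_decay' (a := 1 + ε) (by linarith)).const_mul
    (550 * C * Real.exp (σ * x) * η ^ (-(2 * ε)))
  calc _ ≤ ∫ ξ : ℝ, (550 * C * Real.exp (σ * x) * η ^ (-(2 * ε))) *
        (1 + |2 * Real.pi * ξ|) ^ (-(1 + ε)) :=
        norm_integral_le_of_norm_le hI (Eventually.of_forall hpt)
    _ = _ := by rw [integral_const_mul]; ring

/-! ### from averages to values -/

/-- real averages -/
def avR (η : ℝ) (f : ℝ → ℝ) (u : ℝ) : ℝ := 1 / η * ∫ v in (0:ℝ)..η, f (u + v)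

lemma avg_ofReal (η : ℝ) (f : ℝ → ℝ) : avg η (fun v => (f v : ℂ)) = fun u => (avR η f u : ℂ) := by
  funext u
  unfold avg avR
  rw [intervalIntegral.integral_ofReal]
  push_cast
  rfl

lemma avg2_kk (η x : ℝ) : avg η (avg η kk) x = (avR η (avR η fR) x : ℂ) := by
  have h1 : avg η kk = fun u => (avR η fR u : ℂ) := avg_ofReal η fR
  rw [h1, avg_ofReal]

lemma cont_avR (η : ℝ) : Continuous (avR η fR) := by
  have h1 : avR η fR = fun u => (avg η kk u).re := by
    have h2 : avg η kk = fun u => (avR η fR u : ℂ) := avg_ofReal η fR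
    funext u
    rw [h2, Complex.ofReal_re]
  rw [h1]
  exact Complex.continuous_re.comp (avg_cont nice_kk η)

lemma ii_fR (α β : ℝ) : IntervalIntegrable fR volume α β := by
  have h2 : Continuous (fun u : ℝ => 7 * Real.exp (1 * u)) := by fun_prop
  refine (h2.intervalIntegrable α β).mono_fun meas_fR.aestronglyMeasurable
    (Eventually.of_forall fun u => ?_)
  show ‖fR u‖ ≤ ‖7 * Real.exp (1 * u)‖
  have := nice_kk.bound u
  unfold kk at this
  rw [Complex.norm_real] at this
  rw [Real.norm_of_nonneg (by positivity : 0 ≤ 7 * Real.exp (1 * u))]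
  exact this

lemma avR_ge {η : ℝ} {f : ℝ → ℝ} {u m : ℝ} (hη : 0 < η)
    (hf : IntervalIntegrable f volume u (u + η)) (hm : ∀ v ∈ Icc (0:ℝ) η, m ≤ f (u + v)) :
    m ≤ avR η f u := by
  have h1 : IntervalIntegrable (fun v => f (u + v)) volume 0 η := by
    have := hf.comp_add_left u
    simpa using this
  have h2 : ∫ v in (0:ℝ)..η, m ≤ ∫ v in (0:ℝ)..η, f (u + v) :=
    intervalIntegral.integral_mono_on hη.le (by simp) h1 hm
  rw [intervalIntegral.integral_const, sub_zero, smul_eq_mul] at h2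
  unfold avR
  rw [one_div, ← div_eq_inv_mul, le_div_iff₀ hη]
  linarith

lemma avR_le {η : ℝ} {f : ℝ → ℝ} {u m : ℝ} (hη : 0 < η)
    (hf : IntervalIntegrable f volume u (u + η)) (hm : ∀ v ∈ Icc (0:ℝ) η, f (u + v) ≤ m) :
    avR η f u ≤ m := by
  have h1 : IntervalIntegrable (fun v => f (u + v)) volume 0 η := by
    have := hf.comp_add_left u
    simpa using this
  have h2 : ∫ v in (0:ℝ)..η, f (u + v) ≤ ∫ v in (0:ℝ)..η, m :=
    intervalIntegral.integral_mono_on hη.le h1 (by simp) hm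
  rw [intervalIntegral.integral_const, sub_zero, smul_eq_mul] at h2
  unfold avR
  rw [one_div, ← div_eq_inv_mul, div_le_iff₀ hη]
  linarith

lemma upper {η x : ℝ} (hη : 0 < η) (hx : 0 ≤ x) :
    Chebyshev.psi (Real.exp x) - Real.exp (x + 2 * η) ≤ avR η (avR η fR) x := by
  refine avR_ge hη ((cont_avR η).intervalIntegrable _ _) fun v hv => ?_
  refine avR_ge hη (ii_fR _ _) fun w hw => ?_
  unfold fR
  rw [if_pos (by linarith [hv.1, hw.1])]
  unfold Sv
  have h1 : Chebyshev.psi (Real.exp x) ≤ Chebyshev.psi (Real.exp (x + v + w)) :=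
    Chebyshev.psi_mono (Real.exp_le_exp.2 (by linarith [hv.1, hw.1]))
  have h2 : Real.exp (x + v + w) ≤ Real.exp (x + 2 * η) :=
    Real.exp_le_exp.2 (by linarith [hv.2, hw.2])
  linarith

lemma lower {η x : ℝ} (hη : 0 < η) (hx : 2 * η ≤ x) :
    avR η (avR η fR) (x - 2 * η) ≤ Chebyshev.psi (Real.exp x) - Real.exp (x - 2 * η) := by
  refine avR_le hη ((cont_avR η).intervalIntegrable _ _) fun v hv => ?_
  refine avR_le hη (ii_fR _ _) fun w hw => ?_
  unfold fR
  rw [if_pos (by linarith [hv.1, hw.1])]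
  unfold Sv
  have h1 : Chebyshev.psi (Real.exp (x - 2 * η + v + w)) ≤ Chebyshev.psi (Real.exp x) :=
    Chebyshev.psi_mono (Real.exp_le_exp.2 (by linarith [hv.2, hw.2]))
  have h2 : Real.exp (x - 2 * η) ≤ Real.exp (x - 2 * η + v + w) :=
    Real.exp_le_exp.2 (by linarith [hv.1, hw.1])
  linarith

/-- **The error term in the prime number theorem.** -/
theorem psiB (h : LogDerB) : PsiB := by
  intro θ hθ
  have hhalf := half_le_zetaSup
  by_cases hθ1 : 1 ≤ θ
  · refine ⟨7, fun x hx => (abs_psi_sub (by linarith)).trans ?_⟩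
    have : x ^ (1:ℝ) ≤ x ^ θ := Real.rpow_le_rpow_of_exponent_le hx hθ1
    rw [Real.rpow_one] at this
    linarith
  push Not at hθ1
  set σ : ℝ := (zetaSup + θ) / 2 with hσ
  set ε : ℝ := (θ - σ) / 2 with hε
  have hε0 : 0 < ε := by rw [hε, hσ]; linarith
  have hε1 : 2 * ε ≤ 1 := by rw [hε, hσ]; linarith
  have h1 : zetaSup < σ := by rw [hσ]; linarith
  have h2 : σ ≤ 2 := by rw [hσ]; linarith
  have hσθ : σ + 2 * ε = θ := by rw [hε]; ring
  obtain ⟨C, hC0, hC⟩ := avg2_bound h h1 h2 hε0 hε1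
  refine ⟨C + 63, fun y hy => ?_⟩
  have hy0 : 0 < y := by linarith
  have hyθ : 1 ≤ y ^ θ := Real.one_le_rpow hy (by linarith)
  set x : ℝ := Real.log y with hx
  have hx0 : 0 ≤ x := Real.log_nonneg hy
  set η : ℝ := 1 / y with hη
  have hη0 : 0 < η := by rw [hη]; positivity
  have hη1 : η ≤ 1 := by rw [hη, div_le_one hy0]; exact hy
  have hexpx : Real.exp x = y := by rw [hx, Real.exp_log hy0]
  have hyη : y * η = 1 := by rw [hη]; field_simp
  have hbd : ∀ u : ℝ, u ≤ x → |avR η (avR η fR) u| ≤ C * y ^ θ := by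
    intro u hu
    have h3 := hC η u hη0 hη1
    rw [avg2_kk, Complex.norm_real, Real.norm_eq_abs] at h3
    refine h3.trans ?_
    have h4 : Real.exp (σ * u) ≤ y ^ σ := by
      rw [Real.rpow_def_of_pos hy0, ← hx]
      apply Real.exp_le_exp.2
      have : 0 ≤ σ := by linarith
      nlinarith
    have h5 : η ^ (-(2 * ε)) = y ^ (2 * ε) := by
      rw [hη, one_div, Real.inv_rpow hy0.le, ← Real.rpow_neg hy0.le, neg_neg]
    rw [h5]
    calc C * Real.exp (σ * u) * y ^ (2 * ε) ≤ C * y ^ σ * y ^ (2 * ε) := by gcongr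
      _ = C * y ^ θ := by rw [mul_assoc, ← Real.rpow_add hy0, hσθ]
  have hexp9 : Real.exp 2 ≤ 9 := by
    calc Real.exp 2 = Real.exp 1 * Real.exp 1 := by rw [← Real.exp_add]; norm_num
      _ ≤ 9 := by nlinarith [Real.exp_one_lt_d9, Real.exp_pos 1]
  rw [abs_le]
  constructor
  · -- lower bound
    by_cases hc : 2 * η ≤ x
    · have h3 := lower hη0 hc
      rw [hexpx] at h3
      have h4 := hbd (x - 2 * η) (by linarith)
      have h5 : y - 2 ≤ Real.exp (x - 2 * η) := by
        rw [sub_eq_add_neg x, Real.exp_add, hexpx]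
        have h6 := Real.add_one_le_exp (-(2 * η))
        nlinarith
      have h7 := (abs_le.1 h4).1
      have h8 : (C + 63) * y ^ θ = C * y ^ θ + 63 * y ^ θ := by ring
      rw [h8]
      linarith
    · push Not at hc
      have h3 : y ≤ 9 := by
        rw [← hexpx]
        exact (Real.exp_le_exp.2 (by linarith)).trans hexp9
      have h4 := (abs_le.1 (abs_psi_sub hy0.le)).1
      have h8 : 0 ≤ C * y ^ θ := by positivity
      have h9 : (C + 63) * y ^ θ = C * y ^ θ + 63 * y ^ θ := by ring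
      rw [h9]
      linarith
  · have h3 := upper hη0 hx0
    rw [hexpx] at h3
    have h4 := (abs_le.1 (hbd x le_rfl)).2
    have h5 : Real.exp (x + 2 * η) ≤ y + 18 := by
      rw [Real.exp_add, hexpx]
      have h6 := Real.add_one_le_exp (-(2 * η))
      have h7 : Real.exp (-(2 * η)) * Real.exp (2 * η) = 1 := by rw [← Real.exp_add]; simp
      have h8 : Real.exp (2 * η) ≤ 1 + 2 * η * Real.exp (2 * η) := by
        nlinarith [Real.exp_pos (2 * η)]
      have h9 : Real.exp (2 * η) ≤ 9 := (Real.exp_le_exp.2 (by linarith)).trans hexp9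
      have h10 : Real.exp (2 * η) ≤ 1 + 2 * η * 9 := by nlinarith
      calc y * Real.exp (2 * η) ≤ y * (1 + 2 * η * 9) := by gcongr
        _ = y + 18 * (y * η) := by ring
        _ = y + 18 := by rw [hyη]; ring
    have h8 : (C + 63) * y ^ θ = C * y ^ θ + 63 * y ^ θ := by ring
    rw [h8]
    linarith

end

end Pool.Agent.H25R2.NicN2
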